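import Pool.Agent.MHP.Stmts

/-!
# MHP, row SLT: the gadget in a context, seen from a hub
-/

set_option autoImplicit false

namespace Pool.Agent.MHP.H11

open Pool.Agent.HMT Pool.Agent.MHP

/-- Transport of the second part of a gluing along a bijection. -/
theorem glue_transport {W A B : Type} (e : A ≃ B) (a₀ : A) (b₀ : B) (h0 : e a₀ = b₀)
    (S : SimpleGraph W) (x : W) (C : SimpleGraph A) (C' : SimpleGraph B)
    (hC : ∀ a b, C'.Adj (e a) (e b) ↔ C.Adj a b)
    (e' : {a : A // a ≠ a₀} ≃ {b : B // b ≠ b₀}) (he' : ∀ a, (e' a).1 = e a.1) (a b) :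
    (glue S x C' b₀).Adj (Equiv.sumCongr (Equiv.refl W) e' a)
      (Equiv.sumCongr (Equiv.refl W) e' b) ↔ (glue S x C a₀).Adj a b := by
  rcases a with a | a <;> rcases b with b | b
  · exact Iff.rfl
  · show (a = x ∧ C'.Adj b₀ (e' b).1) ↔ (a = x ∧ C.Adj a₀ b.1)
    rw [he', ← h0, hC]
  · show (b = x ∧ C'.Adj b₀ (e' a).1) ↔ (b = x ∧ C.Adj a₀ a.1)
    rw [he', ← h0, hC]
  · show C'.Adj (e' a).1 (e' b).1 ↔ C.Adj a.1 b.1
    rw [he', he', hC]

/-- The empty gluing. -/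
theorem glue_bot_adj {V W : Type} (x : V) (w : W) (a b) :
    ¬ (glue (⊥ : SimpleGraph V) x (⊥ : SimpleGraph W) w).Adj a b := by
  rcases a with a | a <;> rcases b with b | b
  · exact fun h => h
  · exact fun h => h.2
  · exact fun h => h.2
  · exact fun h => h

/-- Row SLT. -/
theorem slt (h1 : AscStmt) (h2 : AttStmt) : SltStmt := by
  intro M f hf J _ T₀ B GG U _ ρ H j W _ S T x
  have hne : (Sum.inr (ρ j) : Ver T₀ B GG U) ≠ oo T₀ B GG U := by
    intro h
    exact Sum.inr_ne_inl h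
  refine ⟨W ⊕ {v : Ver T₀ B GG U // v ≠ oo T₀ B GG U}, inferInstance,
    glue S x ⊥ (oo T₀ B GG U), glue T x (Gr T₀ B GG ρ H) (oo T₀ B GG U),
    Sum.inr ⟨Sum.inr (ρ j), hne⟩, ?_⟩
  intro V _ r Z
  obtain ⟨e1, he1⟩ := h1 W (Ver T₀ B GG U) V (oo T₀ B GG U) (Sum.inr (ρ j)) hne r
  obtain ⟨e2, he20, he2⟩ := h2 J T₀ B GG U V r
  have hsub : ∀ a : Ver T₀ B GG U ⊕ {v : V // v ≠ r}, a ≠ Sum.inl (oo T₀ B GG U) ↔
      e2 a ≠ oo T₀ B GG (U ⊕ {v : V // v ≠ r}) := by
    intro a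
    rw [← he20]
    exact (e2.injective.ne_iff).symm
  symm
  unfold ev
  refine hf _ _ (e1.trans (Equiv.sumCongr (Equiv.refl W) (e2.subtypeEquiv hsub))) _ _ _ _ ?_ ?_
  · intro a b
    rw [Equiv.trans_apply, Equiv.trans_apply, ← he1]
    apply glue_transport e2 _ _ he20
    · intro c d
      constructor
      · intro h; exact h.elim
      · intro h; exact (glue_bot_adj _ _ _ _ h).elim
    · intro c
      rfl
  · intro a b
    rw [Equiv.trans_apply, Equiv.trans_apply, ← he1]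
    apply glue_transport e2 _ _ he20
    · intro c d
      exact he2 ρ H Z j c d
    · intro c
      rfl

end Pool.Agent.MHP.H11
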